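import Pool.Agent.R320.JL.Fin
import Pool.Agent.R320.JL.Mom
import Pool.Agent.R320.JL.Lv

/-! # Two normalisations of the gaps: comparison in all moments -/

set_option autoImplicit false

open Filter Topology MeasureTheory Set

namespace Pool.Agent.N805.GM

open SG (ord NZ)
open LG (dlt)
open SP (RHs)
open Pool.Agent.R320.CL (SS dl SS_ge SS_le dl_le)
open Pool.Agent.R320.VQ (gap_mom dl_abs powk_sum N_x)
open Pool.Agent.R320.JL (dl_nn add_pow_le2)

noncomputable section

/-- the difference of the two normalised gaps -/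
def w (n : ℕ) : ℝ := dlt n - dl n

lemma w_nonneg {n : ℕ} (hn : 1 ≤ n) : 0 ≤ w n := by
  have h := dl_le hn
  unfold w
  have : dl n ≤ dlt n := by
    refine h.trans (le_of_eq ?_)
    unfold LG.dlt
    ring
  linarith

lemma dlt_abs : ∃ C : ℝ, 0 ≤ C ∧ ∀ n : ℕ, 1 ≤ n → |dlt n| ≤ max (dlt n) 0 + C := by
  obtain ⟨n0, hn0, hnn⟩ := dl_nn
  refine ⟨∑ n ∈ Finset.range n0, |dlt n|, Finset.sum_nonneg fun _ _ => abs_nonneg _, fun n hn => ?_⟩
  rcases Nat.lt_or_ge n n0 with h | h
  · have h1 : |dlt n| ≤ ∑ n ∈ Finset.range n0, |dlt n| :=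
      Finset.single_le_sum (f := fun n => |dlt n|) (fun _ _ => abs_nonneg _) (Finset.mem_range.2 h)
    have := le_max_right (dlt n) 0
    linarith
  · have h1 := hnn n h
    have h2 := w_nonneg hn
    unfold w at h2
    rw [abs_of_nonneg (by linarith)]
    have h5 := le_max_left (dlt n) 0
    have h6 : 0 ≤ ∑ n ∈ Finset.range n0, |dlt n| := Finset.sum_nonneg fun _ _ => abs_nonneg _
    linarith

/-- moments of both gaps -/
lemma g_mom (hRH : RHs) (q : ℕ) : ∃ C : ℝ, 0 < C ∧ ∀ N : ℕ,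
    ∑ n ∈ Finset.Icc 1 N, (|dlt n| + |dl n|) ^ q ≤ C * N := by
  obtain ⟨C1, hC1, h1⟩ := dlt_abs
  obtain ⟨C2, hC2, h2⟩ := dl_abs
  obtain ⟨C3, hC3, h3⟩ := gap_mom hRH q
  refine ⟨2 ^ q * (2 ^ q * C3 + (C1 + C2 + 1) ^ q), by positivity, fun N => ?_⟩
  have hNr : (0 : ℝ) ≤ N := Nat.cast_nonneg _
  have hpt : ∀ n ∈ Finset.Icc 1 N, (|dlt n| + |dl n|) ^ q ≤
      2 ^ q * (2 ^ q * (max (dlt n) 0) ^ q + (C1 + C2 + 1) ^ q) := by
    intro n hn
    have hn1 := (Finset.mem_Icc.1 hn).1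
    have hm0 := le_max_right (dlt n) 0
    have e1 : |dlt n| + |dl n| ≤ 2 * max (dlt n) 0 + (C1 + C2 + 1) := by
      have := h1 n hn1
      have := h2 n hn1
      linarith
    refine (pow_le_pow_left₀ (by positivity) e1 q).trans ?_
    refine (add_pow_le2 (by positivity) (by positivity) q).trans ?_
    rw [mul_pow]
  refine (Finset.sum_le_sum hpt).trans ?_
  rw [← Finset.mul_sum, Finset.sum_add_distrib, Finset.sum_const, Nat.card_Icc,
    Nat.add_sub_cancel, nsmul_eq_mul, ← Finset.mul_sum]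
  have := h3 N
  calc 2 ^ q * (2 ^ q * ∑ n ∈ Finset.Icc 1 N, (max (dlt n) 0) ^ q + N * (C1 + C2 + 1) ^ q) ≤
      2 ^ q * (2 ^ q * (C3 * N) + N * (C1 + C2 + 1) ^ q) := by gcongr
    _ = _ := by ring

lemma log_ord : ∃ m0 : ℕ, 2 ≤ m0 ∧ ∀ m : ℕ, m0 ≤ m → 0 < Real.log m ∧
    Real.log m / 4 ≤ Real.log (ord m / (2 * Real.pi)) ∧ Real.log m ≤ ord m ∧ 0 ≤ dl m := by
  obtain ⟨C, hC, N₀, hN₀, h⟩ := N_x
  obtain ⟨n0, hn0, hnn⟩ := dl_nn
  have hpi := Real.pi_pos
  have e1 : ∀ᶠ m : ℕ in atTop, 100 ≤ ord m := SG.ord_tendsto.eventually_ge_atTop 100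
  have e2 : ∀ᶠ m : ℕ in atTop, 2 * Real.log C + 10 ≤ Real.log m :=
    (Real.tendsto_log_atTop.comp tendsto_natCast_atTop_atTop).eventually_ge_atTop _
  have e3 : ∀ᶠ x : ℝ in atTop, 2 * Real.log x + Real.log C ≤ x := by
    have h2 := Real.isLittleO_log_id_atTop.bound (c := 1 / 4) (by positivity)
    filter_upwards [h2, eventually_ge_atTop 1, eventually_ge_atTop (2 * Real.log C)] with x hx hx1 hx2
    rw [id, Real.norm_of_nonneg (Real.log_nonneg hx1), Real.norm_of_nonneg (by linarith)] at hx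
    linarith
  obtain ⟨m1, hm1⟩ := eventually_atTop.1 (e1.and (e2.and (SG.ord_tendsto.eventually e3)))
  refine ⟨max (max N₀ n0) (max m1 2), (le_max_right _ _).trans (le_max_right _ _), fun m hm => ?_⟩
  have ha : N₀ ≤ m := ((le_max_left _ _).trans (le_max_left _ _)).trans hm
  have hb : n0 ≤ m := ((le_max_right _ _).trans (le_max_left _ _)).trans hm
  have hc : m1 ≤ m := ((le_max_left _ _).trans (le_max_right _ _)).trans hm
  have hd : 2 ≤ m := ((le_max_right _ _).trans (le_max_right _ _)).trans hm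
  obtain ⟨f1, f2, f3⟩ := hm1 m hc
  have f4 := (h m ha).2
  have hm0 : (0 : ℝ) < m := by positivity
  have hl : 0 < Real.log m := Real.log_pos (by exact_mod_cast hd)
  have hC0 : 0 < C := by linarith
  have hu : 0 < ord m := by linarith
  have hlu : 0 < Real.log (ord m) := Real.log_pos (by linarith)
  have hlu2 : Real.log (ord m) ≤ ord m := (Real.log_le_sub_one_of_pos hu).trans (by linarith)
  have f5 : Real.log m ≤ Real.log C + 2 * Real.log (ord m) := by
    have g1 : (m : ℝ) ≤ C * (ord m * ord m) := by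
      refine f4.trans ?_
      gcongr
    calc Real.log m ≤ Real.log (C * (ord m * ord m)) := Real.log_le_log hm0 g1
      _ = _ := by
        rw [Real.log_mul hC0.ne' (by positivity), Real.log_mul hu.ne' hu.ne']
        ring
  refine ⟨hl, ?_, by linarith, hnn m hb⟩
  rw [Real.log_div hu.ne' (by positivity)]
  have g2 : Real.log (2 * Real.pi) ≤ 2 := by
    have h1 : Real.log (2 * Real.pi) ≤ Real.log (Real.exp 2) := by
      apply Real.log_le_log (by positivity)
      have h3 := Real.pi_lt_d2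
      have h4 := Real.exp_one_gt_d9
      have h5 : Real.exp 2 = Real.exp 1 * Real.exp 1 := by rw [← Real.exp_add]; norm_num
      nlinarith
    rwa [Real.log_exp] at h1
  linarith

/-- the difference is small -/
lemma w_pt {m : ℕ} (h0 : 2 ≤ m) (h1 : 0 < Real.log m)
    (h2 : Real.log m / 4 ≤ Real.log (ord m / (2 * Real.pi))) (h3 : Real.log m ≤ ord m)
    (h4 : 0 ≤ dl m) (h5 : 1 ≤ Real.log (ord m / (2 * Real.pi))) :
    w m ≤ 12 * (dl m + dl m ^ 2) / Real.log m := by
  have hpi := Real.pi_gt_three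
  have hpi2 := Real.pi_lt_d2
  obtain ⟨u, hu⟩ : ∃ u, u = ord m := ⟨_, rfl⟩
  obtain ⟨v, hv⟩ : ∃ v, v = ord (m + 1) := ⟨_, rfl⟩
  obtain ⟨L, hL⟩ : ∃ L, L = Real.log (u / (2 * Real.pi)) := ⟨_, rfl⟩
  obtain ⟨d, hd⟩ : ∃ d, d = dl m := ⟨_, rfl⟩
  have hu0 : 0 < u := by rw [hu]; exact SG.ord_pos (by omega)
  have huv : u ≤ v := by rw [hu, hv]; exact SG.ord_mono (by omega) (by omega)
  have hv0 : 0 < v := by linarith
  rw [← hu, ← hL] at h2 h5
  rw [← hu] at h3
  rw [← hd] at h4 ⊢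
  have hL0 : 0 < L := by linarith
  have hdl : d = (v - u) / (2 * Real.pi) * L := by rw [hd, hL, hu, hv]; rfl
  have hx : (v - u) / (2 * Real.pi) = d / L := by rw [hdl]; field_simp
  have hlog2 : Real.log (2 * Real.pi) ≤ 2 := by
    have h1 : Real.log (2 * Real.pi) ≤ Real.log (Real.exp 2) := by
      apply Real.log_le_log (by positivity)
      have h4 := Real.exp_one_gt_d9
      have h5 : Real.exp 2 = Real.exp 1 * Real.exp 1 := by rw [← Real.exp_add]; norm_num
      nlinarith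
    rwa [Real.log_exp] at h1
  have hw : w m = v * (Real.log v - Real.log u) / (2 * Real.pi) + d / L * Real.log (2 * Real.pi) := by
    have e1 : Real.log u = L + Real.log (2 * Real.pi) := by
      rw [hL, Real.log_div hu0.ne' (by positivity)]
      ring
    unfold w LG.dlt
    rw [← hd, ← hx, ← hu, ← hv, hdl, e1]
    field_simp
    ring
  have hlg : v * (Real.log v - Real.log u) ≤ (v - u) + (v - u) ^ 2 / u := by
    have h6 : Real.log v - Real.log u ≤ v / u - 1 := by
      rw [← Real.log_div hv0.ne' hu0.ne']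
      exact Real.log_le_sub_one_of_pos (by positivity)
    calc v * (Real.log v - Real.log u) ≤ v * (v / u - 1) := mul_le_mul_of_nonneg_left h6 hv0.le
      _ = _ := by field_simp; ring
  have hdL : 0 ≤ d / L := by positivity
  have hvu : v - u = 2 * Real.pi * (d / L) := by rw [← hx]; field_simp
  have h7 : w m ≤ 3 * (d / L) + 7 * (d / L) ^ 2 / u := by
    rw [hw]
    have a1 : v * (Real.log v - Real.log u) / (2 * Real.pi) ≤ d / L + 2 * Real.pi * (d / L) ^ 2 / u := by
      rw [div_le_iff₀ (by positivity)]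
      refine hlg.trans (le_of_eq ?_)
      rw [hvu]
      field_simp
    have a2 : d / L * Real.log (2 * Real.pi) ≤ d / L * 2 := mul_le_mul_of_nonneg_left hlog2 hdL
    have a3 : 2 * Real.pi * (d / L) ^ 2 / u ≤ 7 * (d / L) ^ 2 / u := by
      apply div_le_div_of_nonneg_right _ hu0.le
      apply mul_le_mul_of_nonneg_right _ (sq_nonneg _)
      linarith
    linarith
  have h8 : d / L ≤ 4 * d / Real.log m := by
    rw [div_le_div_iff₀ hL0 h1]
    nlinarith
  have h9 : (d / L) ^ 2 / u ≤ d ^ 2 / Real.log m := by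
    have b1 : (d / L) ^ 2 ≤ d ^ 2 := by
      apply pow_le_pow_left₀ hdL
      rw [div_le_iff₀ hL0]
      nlinarith
    exact div_le_div₀ (sq_nonneg _) b1 h1 h3
  calc w m ≤ 3 * (d / L) + 7 * ((d / L) ^ 2 / u) := by rw [mul_div_assoc 7] at h7; exact h7
    _ ≤ 3 * (4 * d / Real.log m) + 7 * (d ^ 2 / Real.log m) := by gcongr
    _ ≤ 3 * (4 * d / Real.log m) + 12 * (d ^ 2 / Real.log m) := by
        have : 0 ≤ d ^ 2 / Real.log m := by positivity
        linarith
    _ = _ := by ring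

end

end Pool.Agent.N805.GM
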