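import Pool.Agent.N805.GM.A

/-! # Two normalisations of the gap sums: comparison in all moments -/

set_option autoImplicit false

open Filter Topology MeasureTheory Set

namespace Pool.Agent.N805.GM

open SG (ord NZ)
open LG (dlt)
open SP (RHs)
open Pool.Agent.R320.CL (SS dl SS_ge SS_le dl_le)
open Pool.Agent.R320.VQ (gap_mom dl_abs powk_sum N_x)
open Pool.Agent.R320.JL (dl_nn add_pow_le2)
open Pool.Agent.Y743.CL (lm log_nat bigT)

noncomputable section

/-- the sum of `r` consecutive gaps in the second normalisation -/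
def St (r n : ℕ) : ℝ := ∑ i ∈ Finset.range r, dlt (n + i)

lemma sqrt_log (q : ℕ) : ∀ᶠ N : ℕ in atTop, (Nat.sqrt N : ℝ) ≤ N / Real.log N ^ q := by
  have h1 : ∀ᶠ x : ℝ in atTop, Real.log x ^ q ≤ x ^ (1 / 2 : ℝ) := by
    have := isLittleO_log_rpow_rpow_atTop (q : ℝ) (show (0 : ℝ) < 1 / 2 by norm_num)
    filter_upwards [this.bound (show (0 : ℝ) < 1 by norm_num), eventually_ge_atTop 1] with x hx hx1
    have hl := Real.log_nonneg hx1
    rw [Real.norm_of_nonneg (by positivity), Real.norm_of_nonneg (by positivity), one_mul,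
      Real.rpow_natCast] at hx
    exact hx
  have h2 := tendsto_natCast_atTop_atTop.eventually h1
  filter_upwards [h2, eventually_ge_atTop 2] with N hN hN2
  have hNr : (2 : ℝ) ≤ N := by exact_mod_cast hN2
  have hl : 0 < Real.log N := Real.log_pos (by linarith)
  rw [le_div_iff₀ (by positivity)]
  have h3 : (Nat.sqrt N : ℝ) ≤ Real.sqrt N := Real.nat_sqrt_le_real_sqrt
  rw [← Real.sqrt_eq_rpow] at hN
  calc (Nat.sqrt N : ℝ) * Real.log N ^ q ≤ Real.sqrt N * Real.sqrt N := by gcongr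
    _ = N := Real.mul_self_sqrt (by linarith)

lemma Wsum (hRH : RHs) (q : ℕ) : ∃ C : ℝ, 0 < C ∧ ∀ᶠ N : ℕ in atTop,
    ∑ m ∈ Finset.Icc 1 N, w m ^ q ≤ C * (N / Real.log N ^ q) := by
  obtain ⟨C1, hC1, h1⟩ := g_mom hRH q
  obtain ⟨C2, hC2, h2⟩ := g_mom hRH (2 * q)
  obtain ⟨m0, hm0, h0⟩ := log_ord
  refine ⟨C1 + 48 ^ q * (2 ^ q * (C1 + C2)), by positivity, ?_⟩
  have ev : ∀ᶠ N : ℕ in atTop, m0 + 1 ≤ Nat.sqrt N ∧ 4 ≤ Real.log (Nat.sqrt N) ∧ 16 ≤ Nat.sqrt N := by
    have e0 : Tendsto Nat.sqrt atTop atTop := by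
      rw [tendsto_atTop_atTop]
      intro b
      refine ⟨b * b, fun a ha => ?_⟩
      exact Nat.le_sqrt.2 ha
    have e1 := e0.eventually ((eventually_ge_atTop (m0 + 1)).and
      (((Real.tendsto_log_atTop.comp tendsto_natCast_atTop_atTop).eventually_ge_atTop 4).and
      (eventually_ge_atTop 16)))
    exact e1
  filter_upwards [sqrt_log q, ev, eventually_ge_atTop 2] with N hs hev hN2
  obtain ⟨hs1, hs2, hs3⟩ := hev
  have hNr : (2 : ℝ) ≤ N := by exact_mod_cast hN2
  have hl : 0 < Real.log N := Real.log_pos (by linarith)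
  obtain ⟨s, hsd⟩ : ∃ s, s = Nat.sqrt N := ⟨_, rfl⟩
  rw [← hsd] at hs hs1 hs2 hs3
  have hsN : s ≤ N := by rw [hsd]; exact Nat.sqrt_le_self N
  have hNs : N < (s + 1) * (s + 1) := by rw [hsd]; exact Nat.lt_succ_sqrt N
  have hs0 : (16 : ℝ) ≤ s := by exact_mod_cast hs3
  have hlog : Real.log N ≤ 4 * Real.log s := by
    have a1 : (N : ℝ) ≤ (s : ℝ) ^ 4 := by
      have a2 : (N : ℝ) ≤ ((s : ℝ) + 1) * (s + 1) := by exact_mod_cast hNs.le
      have a3 : ((s : ℝ) + 1) ≤ s ^ 2 := by nlinarith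
      calc (N : ℝ) ≤ ((s : ℝ) + 1) * (s + 1) := a2
        _ ≤ s ^ 2 * s ^ 2 := by gcongr
        _ = _ := by ring
    calc Real.log N ≤ Real.log ((s : ℝ) ^ 4) := Real.log_le_log (by linarith) a1
      _ = _ := by rw [Real.log_pow]; norm_num
  have hpt : ∀ m ∈ Finset.Icc 1 N, w m ^ q ≤ (if m ≤ s then (|dlt m| + |dl m|) ^ q else 0) +
      (48 / Real.log N) ^ q * (2 ^ q * ((|dlt m| + |dl m|) ^ q + (|dlt m| + |dl m|) ^ (2 * q))) := by
    intro m hm
    have hm1 := (Finset.mem_Icc.1 hm).1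
    have hw0 := w_nonneg hm1
    have hg0 : 0 ≤ |dlt m| + |dl m| := by positivity
    split_ifs with h
    · have a1 : w m ≤ |dlt m| + |dl m| := by
        unfold w
        have := le_abs_self (dlt m)
        have := neg_abs_le (dl m)
        linarith
      have a2 := pow_le_pow_left₀ hw0 a1 q
      have a3 : 0 ≤ (48 / Real.log N) ^ q * (2 ^ q * ((|dlt m| + |dl m|) ^ q +
        (|dlt m| + |dl m|) ^ (2 * q))) := by positivity
      linarith
    · push Not at h
      obtain ⟨b1, b2, b3, b4⟩ := h0 m (by omega)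
      have hsm : Real.log s ≤ Real.log m := Real.log_le_log (by linarith) (by exact_mod_cast h.le)
      have hpt := w_pt (m := m) (by omega) b1 b2 b3 b4 (by linarith)
      have c1 : dl m ≤ |dlt m| + |dl m| := by
        have := le_abs_self (dl m)
        have := abs_nonneg (dlt m)
        linarith
      have c2 : w m ≤ 48 / Real.log N * ((|dlt m| + |dl m|) + (|dlt m| + |dl m|) ^ 2) := by
        have d1 : 12 / Real.log m ≤ 48 / Real.log N := by
          rw [div_le_div_iff₀ b1 hl]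
          linarith
        calc w m ≤ 12 / Real.log m * (dl m + dl m ^ 2) := by
              refine hpt.trans (le_of_eq ?_)
              ring
          _ ≤ _ := by gcongr
      rw [zero_add]
      calc w m ^ q ≤ (48 / Real.log N * ((|dlt m| + |dl m|) + (|dlt m| + |dl m|) ^ 2)) ^ q :=
            pow_le_pow_left₀ hw0 c2 q
        _ = (48 / Real.log N) ^ q * ((|dlt m| + |dl m|) + (|dlt m| + |dl m|) ^ 2) ^ q := mul_pow _ _ _
        _ ≤ _ := by
          apply mul_le_mul_of_nonneg_left _ (by positivity)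
          have := add_pow_le2 hg0 (sq_nonneg (|dlt m| + |dl m|)) q
          rw [← pow_mul] at this
          exact this
  refine (Finset.sum_le_sum hpt).trans ?_
  rw [Finset.sum_add_distrib, ← Finset.sum_filter, ← Finset.mul_sum, ← Finset.mul_sum,
    Finset.sum_add_distrib]
  have hf : (Finset.Icc 1 N).filter (fun m => m ≤ s) = Finset.Icc 1 s := by
    ext m
    simp only [Finset.mem_filter, Finset.mem_Icc]
    omega
  rw [hf]
  have k1 := h1 s
  have k2 := h1 N
  have k3 := h2 N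
  have hN0 : (0 : ℝ) ≤ N := by linarith
  calc ∑ m ∈ Finset.Icc 1 s, (|dlt m| + |dl m|) ^ q + (48 / Real.log N) ^ q *
        (2 ^ q * (∑ m ∈ Finset.Icc 1 N, (|dlt m| + |dl m|) ^ q +
          ∑ m ∈ Finset.Icc 1 N, (|dlt m| + |dl m|) ^ (2 * q))) ≤
      C1 * s + (48 / Real.log N) ^ q * (2 ^ q * (C1 * N + C2 * N)) := by gcongr
    _ ≤ C1 * (N / Real.log N ^ q) + (48 / Real.log N) ^ q * (2 ^ q * (C1 * N + C2 * N)) := by gcongr
    _ = (C1 + 48 ^ q * (2 ^ q * (C1 + C2))) * (N / Real.log N ^ q) := by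
        rw [div_pow]
        ring

lemma St_sub (a n : ℕ) : St a n - SS a n = ∑ i ∈ Finset.range a, w (n + i) := by
  unfold St Pool.Agent.R320.CL.SS w
  rw [Finset.sum_sub_distrib]

lemma St_nonneg {a n : ℕ} (hn : 1 ≤ n) : 0 ≤ St a n - SS a n := by
  rw [St_sub]
  exact Finset.sum_nonneg fun i _ => w_nonneg (by omega)

/-- the two sums are close in every moment -/
lemma D_small (hRH : RHs) (q : ℕ) (hq : 1 ≤ q) (ε : ℝ) (hε : 0 < ε) : ∀ᶠ r : ℕ in atTop,
    ∀ N : ℕ, 1 ≤ N → r * Real.log r ≤ Real.log N → ∀ a : ℕ, 1 ≤ a → a ≤ r →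
    ∑ n ∈ Finset.Icc 1 N, (St a n - SS a n) ^ q ≤ ε * N := by
  obtain ⟨C, hC, hev⟩ := Wsum hRH q
  obtain ⟨N1, hN1⟩ := eventually_atTop.1 hev
  have e1 : ∀ᶠ r : ℕ in atTop, (2 * C / ε) ≤ Real.log r :=
    (Real.tendsto_log_atTop.comp tendsto_natCast_atTop_atTop).eventually_ge_atTop _
  have e2 : ∀ᶠ r : ℕ in atTop, 1 ≤ Real.log r := log_nat.eventually_ge_atTop 1
  filter_upwards [e1, e2, bigT 1 le_rfl N1, eventually_ge_atTop 2] with r h1 h2 h3 h4 N hN hrN a ha har
  have hNr : (1 : ℝ) ≤ N := by exact_mod_cast hN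
  have hNN1 : N1 ≤ N := by exact_mod_cast h3 N hNr (by rw [one_mul]; exact hrN)
  have hr2 : (2 : ℝ) ≤ r := by exact_mod_cast h4
  have hrl : (r : ℝ) ≤ Real.log N := by nlinarith
  have hlN : 0 < Real.log N := by linarith
  have haN : a ≤ N := by
    have : (a : ℝ) ≤ N := by
      have k1 : (a : ℝ) ≤ r := by exact_mod_cast har
      have k2 := Real.log_le_sub_one_of_pos (show (0 : ℝ) < N by linarith)
      linarith
    exact_mod_cast this
  have hpt : ∀ n ∈ Finset.Icc 1 N, (St a n - SS a n) ^ q ≤ (a : ℝ) ^ (q - 1) *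
      ∑ i ∈ Finset.range a, w (n + i) ^ q := by
    intro n hn
    have hn1 := (Finset.mem_Icc.1 hn).1
    rw [St_sub]
    have hg : ∀ j, 0 ≤ w (n + j) := fun j => w_nonneg (by omega)
    exact powk_sum a q hq (fun i => w (n + i)) hg
  have hin : ∀ i ∈ Finset.range a, ∑ n ∈ Finset.Icc 1 N, w (n + i) ^ q ≤
      ∑ m ∈ Finset.Icc 1 (N + a), w m ^ q := by
    intro i hi
    rw [Finset.mem_range] at hi
    have e : ∑ n ∈ Finset.Icc 1 N, w (n + i) ^ q =
        ∑ m ∈ (Finset.Icc 1 N).map (addRightEmbedding i), w m ^ q := by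
      rw [Finset.sum_map]
      rfl
    rw [e]
    apply Finset.sum_le_sum_of_subset_of_nonneg
    · intro m hm
      rw [Finset.mem_map] at hm
      obtain ⟨n, hn, rfl⟩ := hm
      rw [Finset.mem_Icc] at hn ⊢
      simp only [addRightEmbedding_apply]
      omega
    · intro m hm _
      exact pow_nonneg (w_nonneg (Finset.mem_Icc.1 hm).1) _
  have hW := hN1 (N + a) (by omega)
  have hlNa : Real.log N ≤ Real.log ((N + a : ℕ) : ℝ) :=
    Real.log_le_log (by linarith) (by exact_mod_cast Nat.le_add_right N a)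
  have hW2 : ∑ m ∈ Finset.Icc 1 (N + a), w m ^ q ≤ 2 * C * (N / Real.log N ^ q) := by
    refine hW.trans ?_
    have k1 : (((N + a : ℕ) : ℝ)) ≤ 2 * N := by
      have : N + a ≤ 2 * N := by omega
      exact_mod_cast this
    calc C * (((N + a : ℕ) : ℝ) / Real.log ((N + a : ℕ) : ℝ) ^ q) ≤ C * (2 * N / Real.log N ^ q) := by
          gcongr
      _ = _ := by ring
  have ha0 : (0 : ℝ) < a := by exact_mod_cast ha
  have har' : (a : ℝ) ≤ r := by exact_mod_cast har
  calc ∑ n ∈ Finset.Icc 1 N, (St a n - SS a n) ^ q ≤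
      ∑ n ∈ Finset.Icc 1 N, (a : ℝ) ^ (q - 1) * ∑ i ∈ Finset.range a, w (n + i) ^ q :=
        Finset.sum_le_sum hpt
    _ = (a : ℝ) ^ (q - 1) * ∑ i ∈ Finset.range a, ∑ n ∈ Finset.Icc 1 N, w (n + i) ^ q := by
        rw [← Finset.mul_sum, Finset.sum_comm]
    _ ≤ (a : ℝ) ^ (q - 1) * ∑ i ∈ Finset.range a, 2 * C * (N / Real.log N ^ q) := by
        gcongr with i hi
        exact (hin i hi).trans hW2
    _ = (a : ℝ) ^ q * (2 * C * (N / Real.log N ^ q)) := by
        rw [Finset.sum_const, Finset.card_range, nsmul_eq_mul, ← mul_assoc, ← pow_succ,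
          Nat.sub_add_cancel hq]
    _ ≤ (r : ℝ) ^ q * (2 * C * (N / Real.log N ^ q)) := by gcongr
    _ = 2 * C * (r / Real.log N) ^ q * N := by
        rw [div_pow]
        ring
    _ ≤ 2 * C * (1 / Real.log r) ^ 1 * N := by
        have m1 : (r : ℝ) / Real.log N ≤ 1 / Real.log r := by
          rw [div_le_div_iff₀ hlN (by linarith)]
          linarith
        have m2 : (r : ℝ) / Real.log N ≤ 1 := by rw [div_le_one hlN]; exact hrl
        have m3 : ((r : ℝ) / Real.log N) ^ q ≤ ((r : ℝ) / Real.log N) ^ 1 :=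
          pow_le_pow_of_le_one (by positivity) m2 hq
        have m4 : ((r : ℝ) / Real.log N) ^ q ≤ (1 / Real.log r) ^ 1 := by
          rw [pow_one] at m3 ⊢
          linarith
        gcongr
    _ ≤ ε * N := by
        apply mul_le_mul_of_nonneg_right _ (by linarith)
        rw [pow_one, mul_one_div, div_le_iff₀ (by linarith)]
        rw [div_le_iff₀ hε] at h1
        linarith

end

end Pool.Agent.N805.GM
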