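import Pool.Agent.N805.GM.B

/-! # The joint law of the gap sums, with test functions of polynomial growth -/

set_option autoImplicit false

open Filter Topology MeasureTheory Set ProbabilityTheory

namespace Pool.Agent.N805.GM

open SG (ord NZ)
open LG (dlt)
open SP (RHs)
open scoped NNReal
open Pool.Agent.R320.CL (SS dl SS_ge SS_le dl_le)
open Pool.Agent.R320.VQ (gap_mom dl_abs powk_sum N_x)
open Pool.Agent.R320.JL (dl_nn add_pow_le2 fn QQ QQ_bd joint mom2 lv gau_scale gau_int_pow exp_lip)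
open Pool.Agent.Y743.CL (lm log_nat bigT)

noncomputable section

/-- the linear combination, in the second normalisation -/
def fnt {k : ℕ} (c : Fin k → ℝ) (r : ℕ) (b : Fin k → ℕ) (n : ℕ) : ℝ :=
  (∑ i, c i * (St (b i) n - b i)) / lm r

/-- the difference -/
def ed {k : ℕ} (c : Fin k → ℝ) (r : ℕ) (b : Fin k → ℕ) (n : ℕ) : ℝ :=
  (∑ i, c i * (St (b i) n - SS (b i) n)) / lm r

lemma fnt_eq {k : ℕ} (c : Fin k → ℝ) (r : ℕ) (b : Fin k → ℕ) (n : ℕ) :
    fnt c r b n = fn c r b n + ed c r b n := by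
  unfold fnt fn ed
  rw [← add_div, ← Finset.sum_add_distrib]
  congr 1
  refine Finset.sum_congr rfl fun i _ => ?_
  ring

lemma ed_small (hRH : RHs) {k : ℕ} (c : Fin k → ℝ) (p : ℕ) (ε : ℝ) (hε : 0 < ε) :
    ∀ᶠ r : ℕ in atTop, ∀ N : ℕ, 1 ≤ N → r * Real.log r ≤ Real.log N → ∀ b : Fin k → ℕ,
    (∀ i, 1 ≤ b i ∧ b i ≤ r) → ∑ n ∈ Finset.Icc 1 N, |ed c r b n| ^ (p + 1) ≤ ε * N := by
  obtain ⟨S, hS⟩ : ∃ S : ℝ, S = (k : ℝ) ^ p * ∑ i, |c i| ^ (p + 1) + 1 := ⟨_, rfl⟩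
  have hS0 : 0 < S := by rw [hS]; positivity
  have hlm : ∀ᶠ r : ℕ in atTop, 1 ≤ lm r := Pool.Agent.R320.CL.lm_top.eventually_ge_atTop 1
  filter_upwards [D_small hRH (p + 1) (by omega) (ε / S) (by positivity), hlm] with r h1 h2 N hN hrN b hb
  have hNr : (0 : ℝ) ≤ N := Nat.cast_nonneg _
  have hpt : ∀ n ∈ Finset.Icc 1 N, |ed c r b n| ^ (p + 1) ≤ (k : ℝ) ^ p *
      ∑ i, |c i| ^ (p + 1) * (St (b i) n - SS (b i) n) ^ (p + 1) := by
    intro n hn
    have hn1 := (Finset.mem_Icc.1 hn).1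
    have h3 : |ed c r b n| ≤ ∑ i, |c i| * (St (b i) n - SS (b i) n) := by
      unfold ed
      rw [abs_div, abs_of_pos (by linarith : 0 < lm r)]
      refine (div_le_self (abs_nonneg _) h2).trans ?_
      refine (Finset.abs_sum_le_sum_abs _ _).trans (le_of_eq ?_)
      refine Finset.sum_congr rfl fun i _ => ?_
      rw [abs_mul, abs_of_nonneg (St_nonneg hn1)]
    refine (pow_le_pow_left₀ (abs_nonneg _) h3 _).trans ?_
    have h4 := pow_sum_le_card_mul_sum_pow (s := (Finset.univ : Finset (Fin k)))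
      (f := fun i => |c i| * (St (b i) n - SS (b i) n)) (fun i _ =>
        mul_nonneg (abs_nonneg _) (St_nonneg hn1)) p
    rw [Finset.card_univ, Fintype.card_fin] at h4
    refine h4.trans (le_of_eq ?_)
    congr 1
    refine Finset.sum_congr rfl fun i _ => ?_
    rw [mul_pow]
  calc ∑ n ∈ Finset.Icc 1 N, |ed c r b n| ^ (p + 1) ≤ ∑ n ∈ Finset.Icc 1 N, (k : ℝ) ^ p *
      ∑ i, |c i| ^ (p + 1) * (St (b i) n - SS (b i) n) ^ (p + 1) := Finset.sum_le_sum hpt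
    _ = (k : ℝ) ^ p * ∑ i, |c i| ^ (p + 1) *
        ∑ n ∈ Finset.Icc 1 N, (St (b i) n - SS (b i) n) ^ (p + 1) := by
        rw [← Finset.mul_sum, Finset.sum_comm]
        congr 1
        refine Finset.sum_congr rfl fun i _ => ?_
        rw [Finset.mul_sum]
    _ ≤ (k : ℝ) ^ p * ∑ i, |c i| ^ (p + 1) * (ε / S * N) := by
        apply mul_le_mul_of_nonneg_left _ (by positivity)
        refine Finset.sum_le_sum fun i _ => ?_
        exact mul_le_mul_of_nonneg_left (h1 N hN hrN (b i) (hb i).1 (hb i).2) (by positivity)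
    _ = (S - 1) * (ε / S * N) := by
        rw [← Finset.sum_mul, hS]
        ring
    _ ≤ S * (ε / S * N) := by
        apply mul_le_mul_of_nonneg_right _ (by positivity)
        linarith
    _ = _ := by field_simp

lemma cf (hRH : RHs) {k : ℕ} (c : Fin k → ℝ) (ε : ℝ) (hε : 0 < ε) : ∀ᶠ r : ℕ in atTop,
    ∀ N : ℕ, 1 ≤ N → r * Real.log r ≤ Real.log N → ∀ b : Fin k → ℕ, (∀ i, 1 ≤ b i ∧ b i ≤ r) →
    ‖∑ n ∈ Finset.Icc 1 N, (Complex.exp (Complex.I * (fnt c r b n : ℂ)) -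
      (Real.exp (-(QQ c r b / 2)) : ℂ))‖ ≤ ε * N := by
  filter_upwards [joint c (ε / 2) (by positivity), ed_small hRH c 0 (ε / 2) (by positivity)]
    with r h1 h2 N hN hrN b hb
  have k1 := h1 N hN hrN b hb
  have k2 := h2 N hN hrN b hb
  have e : ∑ n ∈ Finset.Icc 1 N, (Complex.exp (Complex.I * (fnt c r b n : ℂ)) -
      (Real.exp (-(QQ c r b / 2)) : ℂ)) =
      ∑ n ∈ Finset.Icc 1 N, (Complex.exp (Complex.I * (fn c r b n : ℂ)) -
      (Real.exp (-(QQ c r b / 2)) : ℂ)) + ∑ n ∈ Finset.Icc 1 N,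
      (Complex.exp (Complex.I * (fnt c r b n : ℂ)) - Complex.exp (Complex.I * (fn c r b n : ℂ))) := by
    rw [← Finset.sum_add_distrib]
    refine Finset.sum_congr rfl fun n _ => ?_
    ring
  rw [e]
  refine (norm_add_le _ _).trans ?_
  have k3 : ‖∑ n ∈ Finset.Icc 1 N,
      (Complex.exp (Complex.I * (fnt c r b n : ℂ)) - Complex.exp (Complex.I * (fn c r b n : ℂ)))‖ ≤
      ∑ n ∈ Finset.Icc 1 N, |ed c r b n| ^ (0 + 1) := by
    refine norm_sum_le_of_le _ fun n _ => ?_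
    refine (exp_lip _ _).trans (le_of_eq ?_)
    rw [fnt_eq, zero_add, pow_one]
    congr 1
    ring
  linarith

lemma mom (hRH : RHs) {k : ℕ} (c : Fin k → ℝ) (p : ℕ) : ∃ C : ℝ, ∀ᶠ r : ℕ in atTop,
    ∀ N : ℕ, 1 ≤ N → r * Real.log r ≤ Real.log N → ∀ b : Fin k → ℕ, (∀ i, 1 ≤ b i ∧ b i ≤ r) →
    ∑ n ∈ Finset.Icc 1 N, (1 + |fnt c r b n|) ^ (p + 1) ≤ C * N := by
  obtain ⟨C, hC⟩ := mom2 hRH c p
  refine ⟨2 ^ (p + 1) * (C + 1), ?_⟩
  filter_upwards [hC, ed_small hRH c p 1 one_pos] with r h1 h2 N hN hrN b hb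
  have k1 := h1 N hN hrN b hb
  have k2 := h2 N hN hrN b hb
  have hpt : ∀ n ∈ Finset.Icc 1 N, (1 + |fnt c r b n|) ^ (p + 1) ≤
      2 ^ (p + 1) * ((1 + |fn c r b n|) ^ (p + 1) + |ed c r b n| ^ (p + 1)) := by
    intro n _
    have e1 : 1 + |fnt c r b n| ≤ (1 + |fn c r b n|) + |ed c r b n| := by
      rw [fnt_eq]
      have := abs_add_le (fn c r b n) (ed c r b n)
      linarith
    refine (pow_le_pow_left₀ (by positivity) e1 _).trans ?_
    exact add_pow_le2 (by positivity) (abs_nonneg _) _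
  refine (Finset.sum_le_sum hpt).trans ?_
  rw [← Finset.mul_sum, Finset.sum_add_distrib]
  calc _ ≤ 2 ^ (p + 1) * (C * N + 1 * N) := by gcongr
    _ = _ := by ring

/-- the Gaussian expectation depends continuously on the variance -/
lemma gau_cont (f : ℝ → ℝ) (hf : Continuous f) (A : ℝ) (p : ℕ) (hfA : ∀ x, |f x| ≤ A * (1 + |x|) ^ p)
    (Q : ℕ → ℝ≥0) (v : ℝ≥0) (hQ : Tendsto Q atTop (𝓝 v)) :
    Tendsto (fun m => ∫ x, f x ∂(gaussianReal 0 (Q m))) atTop (𝓝 (∫ x, f x ∂(gaussianReal 0 v))) := by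
  have hA0 : 0 ≤ A := by
    have := (abs_nonneg _).trans (hfA 0)
    simp at this
    exact this
  have e : ∀ u : ℝ≥0, ∫ x, f x ∂(gaussianReal 0 u) = ∫ x, f (Real.sqrt u * x) ∂(gaussianReal 0 1) :=
    fun u => gau_scale u f hf
  simp_rw [e]
  have hQr : Tendsto (fun m => (Q m : ℝ)) atTop (𝓝 (v : ℝ)) := (NNReal.continuous_coe.tendsto v).comp hQ
  have hsq : Tendsto (fun m => Real.sqrt (Q m : ℝ)) atTop (𝓝 (Real.sqrt v)) :=
    (Real.continuous_sqrt.tendsto _).comp hQr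
  refine tendsto_integral_filter_of_dominated_convergence
    (fun x => A * (1 + (Real.sqrt v + 1)) ^ p * (1 + |x|) ^ p) ?_ ?_ ?_ ?_
  · exact Eventually.of_forall fun m => (hf.comp (continuous_const.mul continuous_id)).aestronglyMeasurable
  · filter_upwards [hsq.eventually (Iic_mem_nhds (lt_add_one (Real.sqrt (v : ℝ))))] with m hm
    refine Eventually.of_forall fun x => ?_
    rw [Real.norm_eq_abs]
    refine (hfA _).trans ?_
    rw [mul_assoc, ← mul_pow]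
    apply mul_le_mul_of_nonneg_left _ hA0
    apply pow_le_pow_left₀ (by positivity)
    rw [abs_mul, abs_of_nonneg (Real.sqrt_nonneg _)]
    have h1 : Real.sqrt (Q m) ≤ Real.sqrt v + 1 := hm
    have h2 := abs_nonneg x
    have h3 := Real.sqrt_nonneg (v : ℝ)
    nlinarith
  · exact (gau_int_pow 1 p).const_mul _
  · refine Eventually.of_forall fun x => ?_
    exact (hf.tendsto _).comp (hsq.mul_const x)

/-- **the joint law, with test functions of polynomial growth** -/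
theorem main (hRH : RHs) {k : ℕ} (c : Fin k → ℝ) (f : ℝ → ℝ) (hf : Continuous f) (A : ℝ) (p : ℕ)
    (hfA : ∀ x, |f x| ≤ A * (1 + |x|) ^ p) (ε : ℝ) (hε : 0 < ε) :
    ∃ r₀ : ℕ, ∀ r : ℕ, r₀ ≤ r → ∀ N : ℕ, 1 ≤ N → r * Real.log r ≤ Real.log N →
    ∀ b : Fin k → ℕ, (∀ i, 1 ≤ b i ∧ b i ≤ r) →
    |(N : ℝ)⁻¹ * ∑ n ∈ Finset.Icc 1 N, f (fnt c r b n) -
      ∫ x, f x ∂(gaussianReal 0 (QQ c r b).toNNReal)| ≤ ε := by
  by_contra hcon
  push Not at hcon
  choose r hr N hN hrN b hb hlt using hcon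
  have hrt : Tendsto r atTop atTop := tendsto_atTop_mono hr tendsto_id
  obtain ⟨B, hB⟩ : ∃ B : ℝ, B = (∑ i, |c i|) ^ 2 * (3 / 2) := ⟨_, rfl⟩
  -- restrict to large m
  obtain ⟨m1, hm1⟩ := eventually_atTop.1 (hrt.eventually (log_nat.eventually_ge_atTop 1))
  have hQb : ∀ m, QQ c (r (m + m1)) (b (m + m1)) ∈ Icc (-B) B := by
    intro m
    have := QQ_bd c (hm1 (m + m1) (by omega)) (b (m + m1)) (hb _)
    rw [← hB] at this
    exact abs_le.1 this
  obtain ⟨a, _, φ, hφ, hlim⟩ := tendsto_subseq_of_bounded (Metric.isBounded_Icc (-B) B) hQb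
  obtain ⟨ψ, hψ⟩ : ∃ ψ : ℕ → ℕ, ψ = fun m => φ m + m1 := ⟨_, rfl⟩
  have hψt : Tendsto ψ atTop atTop := by
    rw [hψ]
    exact tendsto_atTop_mono (fun m => Nat.le_add_right (φ m) m1) hφ.tendsto_atTop
  have hlim' : Tendsto (fun m => QQ c (r (ψ m)) (b (ψ m))) atTop (𝓝 a) := by
    rw [hψ]
    exact hlim
  have hrψ : Tendsto (fun m => r (ψ m)) atTop atTop := hrt.comp hψt
  -- characteristic functions
  have hcf : ∀ ξ : ℝ, Tendsto (fun m => ((N (ψ m) : ℝ)⁻¹) • ∑ n ∈ Finset.Icc 1 (N (ψ m)),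
      Complex.exp (Complex.I * ((ξ * fnt c (r (ψ m)) (b (ψ m)) n : ℝ) : ℂ))) atTop
      (𝓝 (Real.exp (-(ξ ^ 2 * a / 2)) : ℂ)) := by
    intro ξ
    have h1 : Tendsto (fun m => ((Real.exp (-(ξ ^ 2 * QQ c (r (ψ m)) (b (ψ m)) / 2)) : ℝ) : ℂ)) atTop
        (𝓝 (Real.exp (-(ξ ^ 2 * a / 2)) : ℂ)) := by
      apply (Complex.continuous_ofReal.tendsto _).comp
      apply (Real.continuous_exp.tendsto _).comp
      exact ((hlim'.const_mul _).div_const _).neg
    have h2 : Tendsto (fun m => ((N (ψ m) : ℝ)⁻¹) • ∑ n ∈ Finset.Icc 1 (N (ψ m)),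
        Complex.exp (Complex.I * ((ξ * fnt c (r (ψ m)) (b (ψ m)) n : ℝ) : ℂ)) -
        ((Real.exp (-(ξ ^ 2 * QQ c (r (ψ m)) (b (ψ m)) / 2)) : ℝ) : ℂ)) atTop (𝓝 0) := by
      rw [Metric.tendsto_atTop]
      intro η hη
      obtain ⟨m2, hm2⟩ := eventually_atTop.1 (hrψ.eventually (cf hRH (fun i => ξ * c i) (η / 2) (by positivity)))
      refine ⟨m2, fun m hm => ?_⟩
      have h3 := hm2 m hm (N (ψ m)) (hN _) (hrN _) (b (ψ m)) (hb _)
      have hNpos : (0 : ℝ) < N (ψ m) := by exact_mod_cast hN _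
      have e1 : ∀ n, fnt (fun i => ξ * c i) (r (ψ m)) (b (ψ m)) n = ξ * fnt c (r (ψ m)) (b (ψ m)) n := by
        intro n
        unfold fnt
        rw [← mul_div_assoc, Finset.mul_sum]
        congr 1
        refine Finset.sum_congr rfl fun i _ => ?_
        ring
      have e2 : QQ (fun i => ξ * c i) (r (ψ m)) (b (ψ m)) = ξ ^ 2 * QQ c (r (ψ m)) (b (ψ m)) := by
        unfold QQ
        rw [Finset.mul_sum]
        refine Finset.sum_congr rfl fun i _ => ?_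
        rw [Finset.mul_sum]
        refine Finset.sum_congr rfl fun j _ => ?_
        ring
      simp_rw [e1, e2] at h3
      rw [dist_zero_right]
      have e3 : ((N (ψ m) : ℝ)⁻¹) • ∑ n ∈ Finset.Icc 1 (N (ψ m)),
          Complex.exp (Complex.I * ((ξ * fnt c (r (ψ m)) (b (ψ m)) n : ℝ) : ℂ)) -
          ((Real.exp (-(ξ ^ 2 * QQ c (r (ψ m)) (b (ψ m)) / 2)) : ℝ) : ℂ) =
          ((N (ψ m) : ℝ)⁻¹) • ∑ n ∈ Finset.Icc 1 (N (ψ m)),
          (Complex.exp (Complex.I * ((ξ * fnt c (r (ψ m)) (b (ψ m)) n : ℝ) : ℂ)) -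
          ((Real.exp (-(ξ ^ 2 * QQ c (r (ψ m)) (b (ψ m)) / 2)) : ℝ) : ℂ)) := by
        rw [Finset.sum_sub_distrib, smul_sub, Finset.sum_const, Nat.card_Icc, Nat.add_sub_cancel]
        congr 1
        rw [← Nat.cast_smul_eq_nsmul ℝ, smul_smul, inv_mul_cancel₀ hNpos.ne', one_smul]
      rw [e3, norm_smul, norm_inv, Real.norm_of_nonneg hNpos.le, inv_mul_lt_iff₀ hNpos]
      have : η / 2 * N (ψ m) < N (ψ m) * η := by nlinarith
      linarith
    have := h2.add h1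
    simpa using this
  -- the limit variance is nonnegative
  have ha : 0 ≤ a := by
    have h1 := (hcf 1).norm
    have h2 : ‖((Real.exp (-((1 : ℝ) ^ 2 * a / 2)) : ℝ) : ℂ)‖ ≤ 1 := by
      refine le_of_tendsto h1 (Eventually.of_forall fun m => ?_)
      have hNpos : (0 : ℝ) < N (ψ m) := by exact_mod_cast hN _
      rw [norm_smul, norm_inv, Real.norm_of_nonneg hNpos.le, inv_mul_le_iff₀ hNpos]
      refine (norm_sum_le _ _).trans ?_
      simp only [Complex.norm_exp_I_mul_ofReal, Finset.sum_const, Nat.card_Icc, Nat.add_sub_cancel,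
        nsmul_eq_mul, mul_one]
      exact le_rfl
    rw [Complex.norm_real, Real.norm_of_nonneg (Real.exp_pos _).le, Real.exp_le_one_iff] at h2
    linarith
  obtain ⟨C, hC⟩ := mom hRH c p
  have hmain := lv (fun m => fnt c (r (ψ m)) (b (ψ m))) (fun m => N (ψ m)) (fun m => hN _) a.toNNReal
    (by rw [Real.coe_toNNReal a ha]; exact hcf) f hf A p hfA C
    ((hrψ.eventually hC).mono fun m hm => hm _ (hN _) (hrN _) _ (hb _))
  have hg := gau_cont f hf A p hfA (fun m => (QQ c (r (ψ m)) (b (ψ m))).toNNReal) a.toNNReal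
    ((continuous_real_toNNReal.tendsto a).comp hlim')
  have hd := (hmain.sub hg).abs
  rw [sub_self, abs_zero] at hd
  obtain ⟨m, hm⟩ := (hd.eventually (gt_mem_nhds hε)).exists
  exact absurd hm (not_lt.2 (hlt (ψ m)).le)

end

end Pool.Agent.N805.GM
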