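import Pool.Agent.N805.GM.C

/-! # Covariances of the gap sums -/

set_option autoImplicit false

open Filter Topology MeasureTheory Set ProbabilityTheory

namespace Pool.Agent.N805.GM

open SG (ord NZ)
open LG (dlt)
open SP (RHs)
open scoped NNReal
open Pool.Agent.R320.JL (QQ QQ_bd)
open Pool.Agent.Y743.CL (lm log_nat bigT)

noncomputable section

lemma gau_sq (v : ℝ≥0) : ∫ x, x ^ 2 ∂(gaussianReal 0 v) = v := by
  have h1 : Var[fun x : ℝ => x; gaussianReal 0 v] = v := variance_fun_id_gaussianReal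
  rw [variance_of_integral_eq_zero (by fun_prop) (by simp)] at h1
  exact h1

/-- the quadratic form is almost nonnegative -/
lemma QQ_low (hRH : RHs) {k : ℕ} (c : Fin k → ℝ) (ε : ℝ) (hε : 0 < ε) : ∀ᶠ r : ℕ in atTop,
    ∀ N : ℕ, 1 ≤ N → r * Real.log r ≤ Real.log N → ∀ b : Fin k → ℕ, (∀ i, 1 ≤ b i ∧ b i ≤ r) →
    -ε ≤ QQ c r b := by
  filter_upwards [cf hRH c (ε / 2) (by positivity)] with r h N hN hrN b hb
  have h1 := h N hN hrN b hb
  have hNpos : (0 : ℝ) < N := by exact_mod_cast hN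
  rw [Finset.sum_sub_distrib, Finset.sum_const, Nat.card_Icc, Nat.add_sub_cancel, nsmul_eq_mul] at h1
  have h2 : ‖∑ n ∈ Finset.Icc 1 N, Complex.exp (Complex.I * (fnt c r b n : ℂ))‖ ≤ N := by
    refine (norm_sum_le _ _).trans ?_
    simp only [Complex.norm_exp_I_mul_ofReal, Finset.sum_const, Nat.card_Icc, Nat.add_sub_cancel,
        nsmul_eq_mul, mul_one]
    exact le_rfl
  have h3 : ‖(N : ℂ) * (Real.exp (-(QQ c r b / 2)) : ℂ)‖ = N * Real.exp (-(QQ c r b / 2)) := by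
    rw [norm_mul, Complex.norm_natCast, Complex.norm_real, Real.norm_of_nonneg (Real.exp_pos _).le]
  have h4 : N * Real.exp (-(QQ c r b / 2)) ≤ (1 + ε / 2) * N := by
    rw [← h3]
    have := norm_sub_norm_le ((N : ℂ) * (Real.exp (-(QQ c r b / 2)) : ℂ))
      (∑ n ∈ Finset.Icc 1 N, Complex.exp (Complex.I * (fnt c r b n : ℂ)))
    rw [norm_sub_rev] at this
    linarith
  have h5 : Real.exp (-(QQ c r b / 2)) ≤ 1 + ε / 2 := by
    have : N * Real.exp (-(QQ c r b / 2)) ≤ N * (1 + ε / 2) := by linarith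
    exact le_of_mul_le_mul_left this hNpos
  have h6 := Real.add_one_le_exp (-(QQ c r b / 2))
  linarith

lemma sec_mom (hRH : RHs) {k : ℕ} (c : Fin k → ℝ) (ε : ℝ) (hε : 0 < ε) : ∀ᶠ r : ℕ in atTop,
    ∀ N : ℕ, 1 ≤ N → r * Real.log r ≤ Real.log N → ∀ b : Fin k → ℕ, (∀ i, 1 ≤ b i ∧ b i ≤ r) →
    |(N : ℝ)⁻¹ * ∑ n ∈ Finset.Icc 1 N, fnt c r b n ^ 2 - QQ c r b| ≤ ε := by
  obtain ⟨r₀, h₀⟩ := main hRH c (fun x => x ^ 2) (by fun_prop) 1 2 (fun x => by
    rw [one_mul, abs_pow]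
    exact pow_le_pow_left₀ (abs_nonneg _) (by linarith [abs_nonneg x]) 2) (ε / 2) (by positivity)
  filter_upwards [eventually_ge_atTop r₀, QQ_low hRH c (ε / 2) (by positivity)] with r h1 h2 N hN hrN b hb
  have h3 := h₀ r h1 N hN hrN b hb
  have h4 := h2 N hN hrN b hb
  rw [gau_sq, Real.coe_toNNReal'] at h3
  have h5 : |max (QQ c r b) 0 - QQ c r b| ≤ ε / 2 := by
    rcases le_total 0 (QQ c r b) with h | h
    · rw [max_eq_left h, sub_self, abs_zero]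
      linarith
    · rw [max_eq_right h, abs_le]
      constructor <;> linarith
  have h6 := abs_sub_le ((N : ℝ)⁻¹ * ∑ n ∈ Finset.Icc 1 N, fnt c r b n ^ 2) (max (QQ c r b) 0) (QQ c r b)
  linarith

/-- the covariances -/
theorem cov (hRH : RHs) (ε : ℝ) (hε : 0 < ε) : ∀ᶠ r : ℕ in atTop,
    ∀ N : ℕ, 1 ≤ N → r * Real.log r ≤ Real.log N → ∀ a b : ℕ, 1 ≤ a → a ≤ r → 1 ≤ b → b ≤ r →
    |(N : ℝ)⁻¹ * ∑ n ∈ Finset.Icc 1 N, ((St a n - a) / lm r) * ((St b n - b) / lm r) -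
      (Real.log a + Real.log b - Real.log |(a : ℝ) - b|) / (2 * Real.log r)| ≤ ε := by
  filter_upwards [sec_mom hRH ![(1 : ℝ), 1] ε hε, sec_mom hRH ![(1 : ℝ), -1] ε hε]
    with r h1 h2 N hN hrN a b ha har hb hbr
  have hab : ∀ i, 1 ≤ ![a, b] i ∧ ![a, b] i ≤ r := by
    intro i
    fin_cases i
    · exact ⟨ha, har⟩
    · exact ⟨hb, hbr⟩
  have k1 := h1 N hN hrN ![a, b] hab
  have k2 := h2 N hN hrN ![a, b] hab
  have e1 : ∀ n, fnt ![(1 : ℝ), 1] r ![a, b] n = (St a n - a) / lm r + (St b n - b) / lm r := by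
    intro n
    unfold fnt
    simp only [Fin.sum_univ_two, Matrix.cons_val_zero, Matrix.cons_val_one]
    ring
  have e2 : ∀ n, fnt ![(1 : ℝ), -1] r ![a, b] n = (St a n - a) / lm r - (St b n - b) / lm r := by
    intro n
    unfold fnt
    simp only [Fin.sum_univ_two, Matrix.cons_val_zero, Matrix.cons_val_one]
    ring
  have e3 : QQ ![(1 : ℝ), 1] r ![a, b] - QQ ![(1 : ℝ), -1] r ![a, b] =
      4 * ((Real.log a + Real.log b - Real.log |(a : ℝ) - b|) / (2 * Real.log r)) := by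
    unfold QQ Pool.Agent.R320.JL.ld
    simp only [Fin.sum_univ_two, Matrix.cons_val_zero, Matrix.cons_val_one]
    rw [abs_sub_comm (b : ℝ) a]
    ring
  have e4 : (N : ℝ)⁻¹ * ∑ n ∈ Finset.Icc 1 N, fnt ![(1 : ℝ), 1] r ![a, b] n ^ 2 -
      (N : ℝ)⁻¹ * ∑ n ∈ Finset.Icc 1 N, fnt ![(1 : ℝ), -1] r ![a, b] n ^ 2 =
      4 * ((N : ℝ)⁻¹ * ∑ n ∈ Finset.Icc 1 N, ((St a n - a) / lm r) * ((St b n - b) / lm r)) := by
    have e5 : ∑ n ∈ Finset.Icc 1 N, fnt ![(1 : ℝ), 1] r ![a, b] n ^ 2 -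
        ∑ n ∈ Finset.Icc 1 N, fnt ![(1 : ℝ), -1] r ![a, b] n ^ 2 =
        4 * ∑ n ∈ Finset.Icc 1 N, ((St a n - a) / lm r) * ((St b n - b) / lm r) := by
      have e6 : ∀ n, fnt ![(1 : ℝ), 1] r ![a, b] n ^ 2 =
          4 * (((St a n - a) / lm r) * ((St b n - b) / lm r)) +
            fnt ![(1 : ℝ), -1] r ![a, b] n ^ 2 := by
        intro n
        rw [e1, e2]
        ring
      rw [Finset.sum_congr rfl fun n _ => e6 n, Finset.sum_add_distrib, Finset.mul_sum]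
      ring
    rw [← mul_sub, e5]
    ring
  rw [abs_le] at k1 k2 ⊢
  constructor <;> linarith [k1.1, k1.2, k2.1, k2.2]

end

end Pool.Agent.N805.GM
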